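import Pool.Agent.Q195.SP.Ops

/-!
The embedding of `C(K α)` into itself.
-/

set_option linter.unusedSectionVars false
set_option linter.unusedVariables false

namespace Pool.Agent.Q195.SP

open Filter Topology Set

/-- adding finitely many test operators to the identity -/
theorem assemble {r : ℕ} {J : Type} [DecidableEq J] (R : J → (C(K (r + 1), ℝ) →ₗ[ℝ] C(K r, ℝ)))
    (hR : ∀ j f, ‖R j f‖ ≤ ‖f‖) (s : Finset J) :
    ∃ T : C(K (r + 1), ℝ) →ₗ[ℝ] C(K (r + 1), ℝ), (∀ f, ‖T f‖ = ‖f‖) ∧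
      (∀ x, ∃ z, ∀ f, T f z = f x) ∧ ∀ j ∈ s, ∀ y, ∃ z, ∀ f, T f z = R j f y := by
  induction s using Finset.induction_on with
  | empty =>
    exact ⟨LinearMap.id, fun f => rfl, fun x => ⟨x, fun f => rfl⟩, fun j hj => by simp at hj⟩
  | insert j s hj ih =>
    obtain ⟨T0, h1, h2, h3⟩ := ih
    let g : C(K (r + 1), ℝ) → ℕ → C(K r, ℝ) := fun f n =>
      if n = 0 then R j f else (T0 f).comp (incC r (n - 1))
    have hconv : ∀ f, Conv (g f) (T0 f (top (r + 1))) := by
      intro f N hN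
      have h4 := conv_of_cont (T0 f) N hN
      rw [eventually_atTop] at h4 ⊢
      obtain ⟨n0, hn0⟩ := h4
      refine ⟨n0 + 1, fun n hn x => ?_⟩
      show (if n = 0 then R j f else (T0 f).comp (incC r (n - 1))) x ∈ N
      rw [if_neg (by omega)]
      exact hn0 _ (by omega) x
    let T : C(K (r + 1), ℝ) →ₗ[ℝ] C(K (r + 1), ℝ) :=
      { toFun := fun f => glue _ _ (hconv f)
        map_add' := by
          intro f f'
          ext y
          rcases cases_succ y with rfl | ⟨n, z, rfl⟩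
          · show T0 (f + f') (top (r + 1)) = T0 f (top (r + 1)) + T0 f' (top (r + 1))
            rw [map_add]; rfl
          · show g (f + f') n z = g f n z + g f' n z
            simp only [g]
            by_cases hn : n = 0
            · rw [if_pos hn, if_pos hn, if_pos hn, map_add]; rfl
            · rw [if_neg hn, if_neg hn, if_neg hn, map_add]; rfl
        map_smul' := by
          intro c f
          ext y
          rcases cases_succ y with rfl | ⟨n, z, rfl⟩
          · show T0 (c • f) (top (r + 1)) = c * T0 f (top (r + 1))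
            rw [map_smul]; rfl
          · show g (c • f) n z = c * g f n z
            simp only [g]
            by_cases hn : n = 0
            · rw [if_pos hn, if_pos hn, map_smul]; rfl
            · rw [if_neg hn, if_neg hn, map_smul]; rfl }
    have hold : ∀ z : K (r + 1), ∃ z', ∀ f, T f z' = T0 f z := by
      intro z
      rcases cases_succ z with rfl | ⟨n, y, rfl⟩
      · exact ⟨top (r + 1), fun f => rfl⟩
      · refine ⟨inc (n + 1) y, fun f => ?_⟩
        show (if n + 1 = 0 then R j f else (T0 f).comp (incC r (n + 1 - 1))) y = _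
        rw [if_neg (by omega), Nat.add_sub_cancel]
        rfl
    have hnew : ∀ y, ∃ z', ∀ f, T f z' = R j f y := fun y => ⟨inc 0 y, fun f => rfl⟩
    refine ⟨T, ?_, ?_, ?_⟩
    · intro f
      apply le_antisymm
      · rw [ContinuousMap.norm_le _ (norm_nonneg _)]
        intro z
        rcases cases_succ z with rfl | ⟨n, y, rfl⟩
        · show ‖T0 f (top (r + 1))‖ ≤ ‖f‖
          rw [← h1 f]
          exact ContinuousMap.norm_coe_le_norm _ _
        · show ‖(if n = 0 then R j f else (T0 f).comp (incC r (n - 1))) y‖ ≤ ‖f‖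
          split_ifs with hn
          · exact (ContinuousMap.norm_coe_le_norm _ _).trans (hR j f)
          · rw [← h1 f]
            exact ContinuousMap.norm_coe_le_norm (T0 f) _
      · rw [ContinuousMap.norm_le _ (norm_nonneg _)]
        intro x
        obtain ⟨z, hz⟩ := h2 x
        obtain ⟨z', hz'⟩ := hold z
        rw [← hz f, ← hz' f]
        exact ContinuousMap.norm_coe_le_norm _ _
    · intro x
      obtain ⟨z, hz⟩ := h2 x
      obtain ⟨z', hz'⟩ := hold z
      exact ⟨z', fun f => (hz' f).trans (hz f)⟩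
    · intro i hi y
      rcases Finset.mem_insert.1 hi with rfl | hi
      · exact hnew y
      · obtain ⟨z, hz⟩ := h3 i hi y
        obtain ⟨z', hz'⟩ := hold z
        exact ⟨z', fun f => (hz' f).trans (hz f)⟩

/-- a test operator for pairs -/
theorem test_op {r a b : ℕ} (hab : a + b ≤ r) (P : C(K (r + 1), ℝ) →ₗ[ℝ] C(K a, ℝ))
    (Q : C(K (r + 1), ℝ) →ₗ[ℝ] C(K b, ℝ)) (hP : ∀ f y, |P f y| ≤ 2 * ‖f‖)
    (hQ : ∀ f y, |Q f y| ≤ 2 * ‖f‖) (ε : ℝ) (hε : |ε| ≤ 1) :
    ∃ R : C(K (r + 1), ℝ) →ₗ[ℝ] C(K r, ℝ), (∀ f, ‖R f‖ ≤ ‖f‖) ∧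
      ∀ y z, ∃ w, ∀ f, R f w = (P f y + ε * Q f z) / 4 := by
  obtain ⟨d, hd⟩ := Nat.exists_eq_add_of_le hab
  subst hd
  obtain ⟨ρ, hρ⟩ := exists_retr d (a + b)
  obtain ⟨π, hπ⟩ := exists_prod (a + b) a b rfl
  let π1 : C(K (a + b + d), K a) := (⟨Prod.fst, continuous_fst⟩ : C(K a × K b, K a)).comp (π.comp ρ)
  let π2 : C(K (a + b + d), K b) := (⟨Prod.snd, continuous_snd⟩ : C(K a × K b, K b)).comp (π.comp ρ)
  let R : C(K (a + b + d + 1), ℝ) →ₗ[ℝ] C(K (a + b + d), ℝ) :=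
    (1 / 4 : ℝ) • ((pull π1).comp P + ε • (pull π2).comp Q)
  have hRf : ∀ f w, R f w = (P f (π (ρ w)).1 + ε * Q f (π (ρ w)).2) / 4 := by
    intro f w
    show (1 / 4 : ℝ) * (P f (π (ρ w)).1 + ε * Q f (π (ρ w)).2) = _
    ring
  refine ⟨R, ?_, ?_⟩
  · intro f
    rw [ContinuousMap.norm_le _ (norm_nonneg _)]
    intro w
    rw [hRf, Real.norm_eq_abs, abs_div]
    have h1 := hP f (π (ρ w)).1
    have h2 := hQ f (π (ρ w)).2
    have h3 : |P f (π (ρ w)).1 + ε * Q f (π (ρ w)).2| ≤ 4 * ‖f‖ := by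
      refine (abs_add_le _ _).trans ?_
      rw [abs_mul]
      have : |ε| * |Q f (π (ρ w)).2| ≤ 1 * |Q f (π (ρ w)).2| :=
        mul_le_mul_of_nonneg_right hε (abs_nonneg _)
      linarith
    rw [abs_of_pos (by norm_num : (0 : ℝ) < 4)]
    linarith
  · intro y z
    obtain ⟨v, hv⟩ := hπ (y, z)
    obtain ⟨w, hw⟩ := hρ v
    refine ⟨w, fun f => ?_⟩
    rw [hRf, hw, hv]

lemma comb_choice {a b c d s : ℝ} (ha : s ≤ |a|) (hd : s ≤ |d|) :
    ∃ e : Fin 3, s / 3 ≤ |a + (((e : ℕ) : ℝ) - 1) * b| ∧ s / 3 ≤ |c + (((e : ℕ) : ℝ) - 1) * d| := by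
  by_contra hcon
  push Not at hcon
  have h0 := hcon 0
  have h1 := hcon 1
  have h2 := hcon 2
  simp only [Fin.val_zero, Nat.cast_zero, zero_sub, neg_mul, one_mul] at h0
  simp only [Fin.val_one, Nat.cast_one, sub_self, zero_mul, add_zero] at h1
  simp only [Fin.val_two, Nat.cast_ofNat] at h2
  have e1 : ((2 : ℝ) - 1) = 1 := by norm_num
  rw [e1, one_mul, one_mul] at h2
  by_cases hs : s ≤ 0
  · have h3 := h1 (by linarith [abs_nonneg a])
    linarith [abs_nonneg c]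
  push Not at hs
  have hc : |c| < s / 3 := h1 (by linarith)
  have h3 : |a + b| < s / 3 := by
    by_contra h
    push Not at h
    have := h2 h
    have h5 : |d| ≤ |c + d| + |c| := by
      have : d = (c + d) - c := by ring
      calc |d| = |(c + d) - c| := by rw [← this]
        _ ≤ _ := abs_sub _ _
    linarith
  have h4 : |a + -b| < s / 3 := by
    by_contra h
    push Not at h
    have := h0 h
    have h5 : |d| ≤ |c + -d| + |c| := by
      have : d = c - (c + -d) := by ring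
      calc |d| = |c - (c + -d)| := by rw [← this]
        _ ≤ |c| + |c + -d| := abs_sub _ _
        _ = _ := add_comm _ _
    linarith
  have h5 : |a| ≤ (|a + b| + |a + -b|) / 2 := by
    have : a = ((a + b) + (a + -b)) / 2 := by ring
    calc |a| = |((a + b) + (a + -b)) / 2| := by rw [← this]
      _ = |(a + b) + (a + -b)| / 2 := by rw [abs_div]; norm_num
      _ ≤ _ := by
        have := abs_add_le (a + b) (a + -b)
        linarith
  linarith

lemma exists_large {X : Type*} [TopologicalSpace X] [CompactSpace X] (f : C(X, ℝ)) {μ : ℝ}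
    (hμ : 0 < μ) (h : μ ≤ ‖f‖) : ∃ x, μ ≤ |f x| := by
  by_contra hcon
  push Not at hcon
  have : ‖f‖ < μ := by
    rw [ContinuousMap.norm_lt_iff _ hμ]
    exact hcon
  linarith

/-- the main theorem on `K α` -/
theorem main_K {α : ℕ} (hα : 3 ≤ α) : ∃ T : C(K α, ℝ) →ₗ[ℝ] C(K α, ℝ), (∀ f, ‖T f‖ = ‖f‖) ∧
    ∀ f g : C(K α, ℝ), ∀ μ : ℝ, 0 < μ → μ ≤ ‖f‖ → μ ≤ ‖g‖ →
      ∃ z, μ / 51 ≤ |T f z| ∧ μ / 51 ≤ |T g z| := by
  obtain ⟨r, rfl⟩ : ∃ r, α = r + 1 := ⟨α - 1, by omega⟩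
  let q := (r + 1 + 3) / 4
  let h : ℕ → ℕ := fun i => min (i * q) (r + 1)
  let d : ℕ → ℕ := fun i => h (i + 1) - h i
  have hq : 2 * q ≤ r := by simp only [q]; omega
  have hq4 : r + 1 ≤ 4 * q := by simp only [q]; omega
  have hhd : ∀ i, h i + d i = h (i + 1) := by
    intro i
    have : h i ≤ h (i + 1) := by
      simp only [h]
      refine min_le_min_right _ ?_
      exact Nat.mul_le_mul_right _ (Nat.le_succ i)
    simp only [d]
    omega
  have hd : ∀ i, d i ≤ q := by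
    intro i
    simp only [d, h]
    have : (i + 1) * q = i * q + q := by ring
    omega
  have hS : ∀ i : ℕ, ∃ S : C(K (r + 1), ℝ) →ₗ[ℝ] C(K (d i), ℝ), IsDiff (r + 1) (h i) (d i) S := by
    intro i
    refine exists_diff _ _ _ ?_
    rw [hhd]
    exact min_le_right _ _
  choose S hS using hS
  have hSn : ∀ i f y, |S i f y| ≤ 2 * ‖f‖ := by
    intro i f y
    refine (hS i).small f 0 ‖f‖ (fun x => ?_) y
    rw [sub_zero]
    exact ContinuousMap.norm_coe_le_norm f x
  have hεb : ∀ e : Fin 3, |((e : ℕ) : ℝ) - 1| ≤ 1 := by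
    intro e
    fin_cases e <;> norm_num
  -- the test operators
  have hE1 : ∀ p : ℕ × ℕ × Fin 3, ∃ R : C(K (r + 1), ℝ) →ₗ[ℝ] C(K r, ℝ), (∀ f, ‖R f‖ ≤ ‖f‖) ∧
      ∀ y z, ∃ w, ∀ f, R f w = (S p.1 f y + (((p.2.2 : ℕ) : ℝ) - 1) * S p.2.1 f z) / 4 := by
    rintro ⟨i, j, e⟩
    exact test_op (by have := hd i; have := hd j; omega) (S i) (S j) (hSn i) (hSn j) _ (hεb e)
  let P0 : C(K (r + 1), ℝ) →ₗ[ℝ] C(K 0, ℝ) := (2 : ℝ) • pull (ContinuousMap.const _ (top (r + 1)))
  have hP0 : ∀ f y, P0 f y = 2 * f (top (r + 1)) := fun f y => rfl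
  have hE2 : ∀ p : ℕ × Fin 3, ∃ R : C(K (r + 1), ℝ) →ₗ[ℝ] C(K r, ℝ), (∀ f, ‖R f‖ ≤ ‖f‖) ∧
      ∀ z, ∃ w, ∀ f, R f w = (2 * f (top (r + 1)) + (((p.2 : ℕ) : ℝ) - 1) * S p.1 f z) / 4 := by
    rintro ⟨i, e⟩
    obtain ⟨R, h1, h2⟩ := test_op (a := 0) (b := d i) (by have := hd i; omega) P0 (S i) (by
      intro f y
      rw [hP0, abs_mul, abs_of_pos (by norm_num : (0 : ℝ) < 2)]
      exact mul_le_mul_of_nonneg_left (ContinuousMap.norm_coe_le_norm f _) (by norm_num))
      (hSn i) _ (hεb e)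
    refine ⟨R, h1, fun z => ?_⟩
    obtain ⟨w, hw⟩ := h2 (top 0) z
    exact ⟨w, fun f => by rw [hw, hP0]⟩
  choose R1 hR1 using hE1
  choose R2 hR2 using hE2
  obtain ⟨T, hT1, hT2, hT3⟩ := assemble (J := (ℕ × ℕ × Fin 3) ⊕ (ℕ × Fin 3))
    (fun j => Sum.elim R1 R2 j) (by
      rintro (p | p) f
      · exact (hR1 p).1 f
      · exact (hR2 p).1 f)
    (Finset.disjSum (Finset.range 4 ×ˢ (Finset.range 4 ×ˢ Finset.univ))
      (Finset.range 4 ×ˢ Finset.univ))
  refine ⟨T, hT1, ?_⟩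
  -- a large difference
  have hstep : ∀ f : C(K (r + 1), ℝ), ∀ μ : ℝ, 0 < μ → μ ≤ ‖f‖ → |f (top (r + 1))| < μ / 17 →
      ∃ i < 4, ∃ y, 4 * μ / 17 ≤ |S i f y| := by
    intro f μ hμ hf ht
    obtain ⟨x, hx⟩ := exists_large f hμ hf
    by_contra hcon
    push Not at hcon
    have hD : ∀ i < 4, |f (anc (r + 1) (h i) x) - f (anc (r + 1) (h (i + 1)) x)| < 4 * μ / 17 := by
      intro i hi
      obtain ⟨y, hy⟩ := (hS i).hit x
      have h1 := hcon i hi y
      rw [hy f, hhd] at h1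
      exact h1
    have e0 : anc (r + 1) (h 0) x = x := by
      have : h 0 = 0 := by simp [h]
      rw [this, anc_zero]
    have e4 : anc (r + 1) (h 4) x = top (r + 1) := by
      refine anc_ge ?_ x
      simp only [h]
      exact le_min hq4 le_rfl
    have d0 := hD 0 (by norm_num)
    have d1 := hD 1 (by norm_num)
    have d2 := hD 2 (by norm_num)
    have d3 := hD 3 (by norm_num)
    simp only [Nat.reduceAdd] at d0 d1 d2 d3
    rw [e0] at d0
    rw [e4] at d3
    rw [abs_lt] at d0 d1 d2 d3 ht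
    have h6 : |f x| < μ := by
      rw [abs_lt]
      constructor <;> linarith [d0.1, d0.2, d1.1, d1.2, d2.1, d2.2, d3.1, d3.2, ht.1, ht.2]
    linarith
  -- one of the two is small at the top, the other is large
  have hB : ∀ f g : C(K (r + 1), ℝ), ∀ μ : ℝ, 0 < μ → μ ≤ ‖f‖ → |f (top (r + 1))| < μ / 17 →
      μ / 17 ≤ |g (top (r + 1))| → ∃ z, μ / 51 ≤ |T f z| ∧ μ / 51 ≤ |T g z| := by
    intro f g μ hμ hf ht hg
    obtain ⟨i, hi, y, hy⟩ := hstep f μ hμ hf ht
    have hchoice : ∃ e : Fin 3, |((e : ℕ) : ℝ) - 1| = 1 ∧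
        0 ≤ g (top (r + 1)) * ((((e : ℕ) : ℝ) - 1) * S i g y) := by
      rcases le_total 0 (g (top (r + 1)) * S i g y) with h0 | h0
      · refine ⟨2, by norm_num, ?_⟩
        have : (((2 : Fin 3) : ℕ) : ℝ) - 1 = 1 := by norm_num
        rw [this]; linarith
      · refine ⟨0, by norm_num, ?_⟩
        have : (((0 : Fin 3) : ℕ) : ℝ) - 1 = -1 := by norm_num
        rw [this]; linarith
    obtain ⟨e, he1, he2⟩ := hchoice
    obtain ⟨w, hw⟩ := (hR2 (i, e)).2 y
    obtain ⟨z, hz⟩ := hT3 (Sum.inr (i, e)) (by simp [hi]) w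
    refine ⟨z, ?_, ?_⟩
    · have h1 : T f z = (2 * f (top (r + 1)) + (((e : ℕ) : ℝ) - 1) * S i f y) / 4 :=
        (hz f).trans (hw f)
      rw [h1, abs_div, abs_of_pos (by norm_num : (0 : ℝ) < 4)]
      have h2 : |(((e : ℕ) : ℝ) - 1) * S i f y| = |S i f y| := by rw [abs_mul, he1, one_mul]
      have h3 : |(((e : ℕ) : ℝ) - 1) * S i f y| ≤
          |2 * f (top (r + 1)) + (((e : ℕ) : ℝ) - 1) * S i f y| + |2 * f (top (r + 1))| := by
        have : (((e : ℕ) : ℝ) - 1) * S i f y =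
          (2 * f (top (r + 1)) + (((e : ℕ) : ℝ) - 1) * S i f y) - 2 * f (top (r + 1)) := by ring
        calc |(((e : ℕ) : ℝ) - 1) * S i f y|
            = |(2 * f (top (r + 1)) + (((e : ℕ) : ℝ) - 1) * S i f y) - 2 * f (top (r + 1))| := by
              rw [← this]
          _ ≤ _ := abs_sub _ _
      rw [h2, abs_mul 2, abs_of_pos (by norm_num : (0 : ℝ) < 2)] at h3
      linarith
    · have h1 : T g z = (2 * g (top (r + 1)) + (((e : ℕ) : ℝ) - 1) * S i g y) / 4 :=
        (hz g).trans (hw g)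
      rw [h1, abs_div, abs_of_pos (by norm_num : (0 : ℝ) < 4)]
      have h3 : |2 * g (top (r + 1))| ≤ |2 * g (top (r + 1)) + (((e : ℕ) : ℝ) - 1) * S i g y| := by
        set A := g (top (r + 1)) with hA
        set B := (((e : ℕ) : ℝ) - 1) * S i g y with hB'
        refine sq_le_sq.1 ?_
        nlinarith [sq_nonneg B]
      rw [abs_mul, abs_of_pos (by norm_num : (0 : ℝ) < 2)] at h3
      linarith
  intro f g μ hμ hf hg
  rcases lt_or_ge |f (top (r + 1))| (μ / 17) with hft | hft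
  · rcases lt_or_ge |g (top (r + 1))| (μ / 17) with hgt | hgt
    · obtain ⟨i, hi, y, hy⟩ := hstep f μ hμ hf hft
      obtain ⟨j, hj, z, hz⟩ := hstep g μ hμ hg hgt
      obtain ⟨e, he1, he2⟩ := comb_choice (a := S i f y) (b := S j f z) (c := S i g y)
        (d := S j g z) hy hz
      obtain ⟨w, hw⟩ := (hR1 (i, j, e)).2 y z
      obtain ⟨v, hv⟩ := hT3 (Sum.inl (i, j, e)) (by simp [hi, hj]) w
      refine ⟨v, ?_, ?_⟩
      · have h1 : T f v = (S i f y + (((e : ℕ) : ℝ) - 1) * S j f z) / 4 := (hv f).trans (hw f)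
        rw [h1, abs_div, abs_of_pos (by norm_num : (0 : ℝ) < 4)]
        linarith
      · have h1 : T g v = (S i g y + (((e : ℕ) : ℝ) - 1) * S j g z) / 4 := (hv g).trans (hw g)
        rw [h1, abs_div, abs_of_pos (by norm_num : (0 : ℝ) < 4)]
        linarith
    · exact hB f g μ hμ hf hft hgt
  · rcases lt_or_ge |g (top (r + 1))| (μ / 17) with hgt | hgt
    · obtain ⟨z, h1, h2⟩ := hB g f μ hμ hg hgt hft
      exact ⟨z, h2, h1⟩
    · obtain ⟨z, hz⟩ := hT2 (top (r + 1))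
      refine ⟨z, ?_, ?_⟩
      · rw [hz f]; linarith
      · rw [hz g]; linarith

end Pool.Agent.Q195.SP
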