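import Mathlib

/-!
The spaces `K r` (homeomorphic to the ordinal intervals `[1, ω ^ r]`): a point, and the one-point
compactification of `ℕ × K r`.
-/

set_option linter.unusedSectionVars false
set_option linter.unusedVariables false

namespace Pool.Agent.Q195.SP

open Filter Topology Set

/-- the bundled spaces -/
def Kb : ℕ → TopCat.{0}
  | 0 => TopCat.of PUnit
  | (r + 1) => TopCat.of (OnePoint (ℕ × Kb r))

/-- the spaces -/
abbrev K (r : ℕ) : Type := Kb r

instance compactK : ∀ r, CompactSpace (K r)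
  | 0 => inferInstanceAs (CompactSpace PUnit)
  | (r + 1) => inferInstanceAs (CompactSpace (OnePoint (ℕ × K r)))

instance t2K : ∀ r, T2Space (K r)
  | 0 => inferInstanceAs (T2Space PUnit)
  | (r + 1) => by
    have := t2K r
    exact inferInstanceAs (T2Space (OnePoint (ℕ × K r)))

/-- the point of highest rank -/
def top : ∀ r, K r
  | 0 => PUnit.unit
  | (r + 1) => (OnePoint.infty : OnePoint (ℕ × K r))

/-- the `n`-th copy -/
def inc {r : ℕ} (n : ℕ) (x : K r) : K (r + 1) :=
  (OnePoint.some (n, x) : OnePoint (ℕ × K r))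

lemma eq_top_zero (x : K 0) : x = top 0 := Subsingleton.elim (α := PUnit) _ _

lemma cases_succ {r : ℕ} (x : K (r + 1)) : x = top (r + 1) ∨ ∃ n y, x = inc n y := by
  have h : ∀ x : OnePoint (ℕ × K r), x = OnePoint.infty ∨ ∃ n y, x = OnePoint.some (n, y) := by
    intro x
    induction x using OnePoint.rec with
    | infty => exact Or.inl rfl
    | coe p => exact Or.inr ⟨p.1, p.2, rfl⟩
  exact h x

lemma inc_ne_top {r : ℕ} (n : ℕ) (x : K r) : inc n x ≠ top (r + 1) :=
  OnePoint.coe_ne_infty (X := ℕ × K r) (n, x)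

lemma inc_inj {r : ℕ} {n m : ℕ} {x y : K r} (h : inc n x = inc m y) : n = m ∧ x = y := by
  have := OnePoint.coe_injective (X := ℕ × K r) (a₁ := (n, x)) (a₂ := (m, y)) h
  exact ⟨congrArg Prod.fst this, congrArg Prod.snd this⟩

lemma continuous_inc {r : ℕ} (n : ℕ) : Continuous (inc n : K r → K (r + 1)) := by
  have h1 : Continuous (fun x : K r => (n, x)) := by fun_prop
  have h2 : Continuous (OnePoint.some : ℕ × K r → OnePoint (ℕ × K r)) := OnePoint.continuous_coe
  exact h2.comp h1

/-- `inc` as a continuous map -/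
def incC (r n : ℕ) : C(K r, K (r + 1)) := ⟨inc n, continuous_inc n⟩

variable {Y : Type*} [TopologicalSpace Y]

/-- uniform convergence of a sequence of maps to a point -/
def Conv {r : ℕ} (g : ℕ → C(K r, Y)) (y0 : Y) : Prop :=
  ∀ N ∈ 𝓝 y0, ∀ᶠ n in atTop, ∀ x, g n x ∈ N

/-- glueing -/
def glueFun {r : ℕ} (g : ℕ → C(K r, Y)) (y0 : Y) : K (r + 1) → Y :=
  fun x => OnePoint.elim (X := ℕ × K r) x y0 (fun p => g p.1 p.2)

lemma continuous_glue {r : ℕ} {g : ℕ → C(K r, Y)} {y0 : Y} (h : Conv g y0) :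
    Continuous (glueFun g y0) := by
  have h1 : Continuous (fun p : ℕ × K r => g p.1 p.2) := by
    rw [continuous_prod_of_discrete_left]
    intro n
    exact (g n).continuous
  have h2 : Continuous (glueFun g y0 : OnePoint (ℕ × K r) → Y) := by
    refine (OnePoint.continuous_iff (X := ℕ × K r) (glueFun g y0)).2 ⟨?_, h1⟩
    intro N hN
    have h3 := h N hN
    rw [eventually_atTop] at h3
    obtain ⟨n0, hn0⟩ := h3
    have h4 : IsCompact ((Set.Iio n0) ×ˢ (Set.univ : Set (K r))) :=
      (Set.finite_Iio n0).isCompact.prod isCompact_univ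
    rw [coclosedCompact_eq_cocompact]
    rw [mem_map]
    refine mem_of_superset h4.compl_mem_cocompact ?_
    rintro ⟨n, x⟩ hx
    have : n0 ≤ n := by
      by_contra hcon
      exact hx ⟨by simpa using hcon, mem_univ _⟩
    exact hn0 n this x
  exact h2

/-- glueing as a continuous map -/
def glue {r : ℕ} (g : ℕ → C(K r, Y)) (y0 : Y) (h : Conv g y0) : C(K (r + 1), Y) :=
  ⟨glueFun g y0, continuous_glue h⟩

lemma glue_top {r : ℕ} {g : ℕ → C(K r, Y)} {y0 : Y} (h : Conv g y0) :
    glue g y0 h (top (r + 1)) = y0 := rfl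

lemma glue_inc {r : ℕ} {g : ℕ → C(K r, Y)} {y0 : Y} (h : Conv g y0) (n : ℕ) (x : K r) :
    glue g y0 h (inc n x) = g n x := rfl

lemma conv_of_cont {r : ℕ} (f : C(K (r + 1), Y)) :
    Conv (fun n => f.comp (incC r n)) (f (top (r + 1))) := by
  intro N hN
  have h1 : Tendsto (fun p : ℕ × K r => f (inc p.1 p.2)) (cocompact (ℕ × K r))
      (𝓝 (f (top (r + 1)))) := by
    have h2 := (OnePoint.continuous_iff (X := ℕ × K r) f).1 f.continuous
    rw [← coclosedCompact_eq_cocompact]
    exact h2.1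
  have h3 := h1 hN
  rw [mem_map, mem_cocompact] at h3
  obtain ⟨t, ht, hts⟩ := h3
  have h4 : (Prod.fst '' t).Finite := by
    have := ht.image (continuous_fst : Continuous (Prod.fst : ℕ × K r → ℕ))
    exact this.finite_of_discrete
  obtain ⟨n0, hn0⟩ := h4.bddAbove
  rw [eventually_atTop]
  refine ⟨n0 + 1, fun n hn x => ?_⟩
  have : (n, x) ∈ tᶜ := by
    intro hx
    have := hn0 ⟨(n, x), hx, rfl⟩
    simp at this
    omega
  exact hts this

lemma conv_inc (r : ℕ) : Conv (fun n => incC r n) (top (r + 1)) :=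
  conv_of_cont (ContinuousMap.id (K (r + 1)))

lemma Conv.comp {r : ℕ} {Z : Type*} [TopologicalSpace Z] {g : ℕ → C(K r, Y)} {y0 : Y}
    (h : Conv g y0) (φ : C(Y, Z)) : Conv (fun n => φ.comp (g n)) (φ y0) := by
  intro N hN
  exact (h _ (φ.continuous.continuousAt hN)).mono fun n hn x => hn x

lemma Conv.pre {r s : ℕ} {g : ℕ → C(K r, Y)} {y0 : Y}
    (h : Conv g y0) (ψ : ℕ → C(K s, K r)) : Conv (fun n => (g n).comp (ψ n)) y0 := by
  intro N hN
  exact (h N hN).mono fun n hn x => hn _

/-- interleaving two sequences -/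
lemma Conv.interleave {r : ℕ} {g0 g1 : ℕ → C(K r, Y)} {y0 : Y} (h0 : Conv g0 y0)
    (h1 : Conv g1 y0) : Conv (fun m => if m % 2 = 0 then g0 (m / 2) else g1 (m / 2)) y0 := by
  intro N hN
  have h2 := h0 N hN
  have h3 := h1 N hN
  rw [eventually_atTop] at h2 h3 ⊢
  obtain ⟨n0, hn0⟩ := h2
  obtain ⟨n1, hn1⟩ := h3
  refine ⟨2 * (n0 + n1), fun m hm x => ?_⟩
  show (if m % 2 = 0 then g0 (m / 2) else g1 (m / 2)) x ∈ N
  split_ifs with h
  · exact hn0 _ (by omega) x
  · exact hn1 _ (by omega) x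

/-- shifting the copies -/
def shift (r n : ℕ) : C(K (r + 1), K (r + 1)) :=
  glue (fun m => incC r (m + n)) (top (r + 1)) (by
    intro N hN
    have h := conv_inc r N hN
    rw [eventually_atTop] at h ⊢
    obtain ⟨n0, hn0⟩ := h
    exact ⟨n0, fun m hm x => hn0 _ (by omega) x⟩)

lemma shift_top (r n : ℕ) : shift r n (top (r + 1)) = top (r + 1) := rfl
lemma shift_inc (r n m : ℕ) (x : K r) : shift r n (inc m x) = inc (m + n) x := rfl

lemma shift_unif (r : ℕ) : ∀ N ∈ 𝓝 (top (r + 1)), ∀ᶠ n in atTop, ∀ x, shift r n x ∈ N := by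
  intro N hN
  have h := conv_inc r N hN
  rw [eventually_atTop] at h ⊢
  obtain ⟨n0, hn0⟩ := h
  refine ⟨n0, fun n hn x => ?_⟩
  rcases cases_succ x with rfl | ⟨m, y, rfl⟩
  · rw [shift_top]; exact mem_of_mem_nhds hN
  · rw [shift_inc]; exact hn0 _ (by omega) y

/-- continuous surjections onto products -/
theorem exists_prod : ∀ r a b : ℕ, a + b = r →
    ∃ π : C(K r, K a × K b), Function.Surjective π := by
  intro r
  induction r with
  | zero =>
    intro a b h
    obtain rfl : a = 0 := by omega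
    obtain rfl : b = 0 := by omega
    refine ⟨⟨fun x => (x, x), by fun_prop⟩, fun p => ⟨top 0, ?_⟩⟩
    exact Prod.ext (eq_top_zero _).symm (eq_top_zero _).symm
  | succ r ih =>
    intro a b h
    rcases Nat.eq_zero_or_pos a with rfl | ha
    · obtain rfl : b = r + 1 := by omega
      refine ⟨⟨fun x => (top 0, x), by fun_prop⟩, fun p => ⟨p.2, ?_⟩⟩
      exact Prod.ext (eq_top_zero _).symm rfl
    rcases Nat.eq_zero_or_pos b with rfl | hb
    · obtain rfl : a = r + 1 := by omega
      refine ⟨⟨fun x => (x, top 0), by fun_prop⟩, fun p => ⟨p.1, ?_⟩⟩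
      exact Prod.ext rfl (eq_top_zero _).symm
    obtain ⟨a, rfl⟩ := Nat.exists_eq_succ_of_ne_zero ha.ne'
    obtain ⟨b, rfl⟩ := Nat.exists_eq_succ_of_ne_zero hb.ne'
    obtain ⟨π1, h1⟩ := ih a (b + 1) (by omega)
    obtain ⟨π2, h2⟩ := ih (a + 1) b (by omega)
    let g0 : ℕ → C(K r, K (a + 1) × K (b + 1)) := fun n =>
      (((incC a n).comp ⟨Prod.fst, continuous_fst⟩).prodMk
        ((shift b n).comp ⟨Prod.snd, continuous_snd⟩)).comp π1
    let g1 : ℕ → C(K r, K (a + 1) × K (b + 1)) := fun n =>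
      (((shift a (n + 1)).comp ⟨Prod.fst, continuous_fst⟩).prodMk
        ((incC b n).comp ⟨Prod.snd, continuous_snd⟩)).comp π2
    have c0 : Conv g0 (top (a + 1), top (b + 1)) := by
      intro N hN
      rw [mem_nhds_prod_iff] at hN
      obtain ⟨u, hu, v, hv, huv⟩ := hN
      filter_upwards [conv_inc a u hu, shift_unif b v hv] with n hn1 hn2 x
      exact huv ⟨hn1 _, hn2 _⟩
    have c1 : Conv g1 (top (a + 1), top (b + 1)) := by
      intro N hN
      rw [mem_nhds_prod_iff] at hN
      obtain ⟨u, hu, v, hv, huv⟩ := hN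
      have hs := (tendsto_add_atTop_nat 1).eventually (shift_unif a u hu)
      filter_upwards [hs, conv_inc b v hv] with n hn1 hn2 x
      exact huv ⟨hn1 _, hn2 _⟩
    refine ⟨glue _ _ (c0.interleave c1), ?_⟩
    have key0 : ∀ n p, ∃ z, glue _ _ (c0.interleave c1) z = g0 n p := by
      intro n p
      refine ⟨inc (2 * n) p, ?_⟩
      rw [glue_inc, if_pos (by omega)]
      congr 2
      omega
    have key1 : ∀ n p, ∃ z, glue _ _ (c0.interleave c1) z = g1 n p := by
      intro n p
      refine ⟨inc (2 * n + 1) p, ?_⟩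
      rw [glue_inc, if_neg (by omega)]
      congr 2
      omega
    rintro ⟨u, v⟩
    rcases cases_succ u with rfl | ⟨n, x, rfl⟩
    · rcases cases_succ v with rfl | ⟨m, y, rfl⟩
      · exact ⟨top (r + 1), rfl⟩
      · obtain ⟨p, hp⟩ := h2 (top (a + 1), y)
        obtain ⟨z, hz⟩ := key1 m p
        refine ⟨z, ?_⟩
        rw [hz]
        show (shift a (m + 1) (π2 p).1, inc m (π2 p).2) = _
        rw [hp, shift_top]
    · rcases cases_succ v with rfl | ⟨m, y, rfl⟩
      · obtain ⟨p, hp⟩ := h1 (x, top (b + 1))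
        obtain ⟨z, hz⟩ := key0 n p
        refine ⟨z, ?_⟩
        rw [hz]
        show (inc n (π1 p).1, shift b n (π1 p).2) = _
        rw [hp, shift_top]
      · by_cases hnm : n ≤ m
        · obtain ⟨p, hp⟩ := h1 (x, inc (m - n) y)
          obtain ⟨z, hz⟩ := key0 n p
          refine ⟨z, ?_⟩
          rw [hz]
          show (inc n (π1 p).1, shift b n (π1 p).2) = _
          rw [hp, shift_inc, Nat.sub_add_cancel hnm]
        · obtain ⟨p, hp⟩ := h2 (inc (n - (m + 1)) x, y)
          obtain ⟨z, hz⟩ := key1 m p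
          refine ⟨z, ?_⟩
          rw [hz]
          show (shift a (m + 1) (π2 p).1, inc m (π2 p).2) = _
          rw [hp, shift_inc, Nat.sub_add_cancel (by omega)]

/-- continuous surjections onto smaller ranks -/
theorem exists_retr : ∀ d t : ℕ, ∃ ρ : C(K (t + d), K t), Function.Surjective ρ := by
  intro d
  induction d with
  | zero => intro t; exact ⟨ContinuousMap.id _, Function.surjective_id⟩
  | succ d ih =>
    intro t
    obtain ⟨ρ, hρ⟩ := ih t
    have hc : Conv (fun n => if n = 0 then ρ else ContinuousMap.const _ (top t)) (top t) := by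
      intro N hN
      rw [eventually_atTop]
      refine ⟨1, fun n hn x => ?_⟩
      show (if n = 0 then ρ else ContinuousMap.const _ (top t)) x ∈ N
      rw [if_neg (by omega)]
      exact mem_of_mem_nhds hN
    refine ⟨glue _ _ hc, fun y => ?_⟩
    obtain ⟨x, hx⟩ := hρ y
    exact ⟨inc 0 x, hx⟩

end Pool.Agent.Q195.SP
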