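import Pool.Agent.Q195.SP.KSpace

/-!
Differences along the ancestors, as operators into small spaces.
-/

set_option linter.unusedSectionVars false
set_option linter.unusedVariables false

namespace Pool.Agent.Q195.SP

open Filter Topology Set

/-- the ancestor of rank at least `h` -/
def anc : ∀ r : ℕ, ℕ → K r → K r
  | 0, _, x => x
  | (r + 1), h, x => if r + 1 ≤ h then top (r + 1) else
      OnePoint.elim (X := ℕ × K r) x (top (r + 1)) (fun p => inc p.1 (anc r h p.2))

lemma anc_ge {r h : ℕ} (hr : r ≤ h) (x : K r) : anc r h x = top r := by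
  cases r with
  | zero => exact eq_top_zero _
  | succ r => unfold anc; rw [if_pos hr]

lemma anc_top (r h : ℕ) : anc r h (top r) = top r := by
  cases r with
  | zero => exact eq_top_zero _
  | succ r =>
    unfold anc
    split_ifs
    · rfl
    · rfl

lemma anc_inc {r h : ℕ} (hr : h ≤ r) (n : ℕ) (x : K r) :
    anc (r + 1) h (inc n x) = inc n (anc r h x) := by
  conv_lhs => unfold anc
  rw [if_neg (by omega)]
  rfl

lemma anc_zero : ∀ (r : ℕ) (x : K r), anc r 0 x = x
  | 0, x => rfl
  | (r + 1), x => by
    rcases cases_succ x with rfl | ⟨n, y, rfl⟩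
    · exact anc_top _ _
    · rw [anc_inc (Nat.zero_le _), anc_zero r y]

/-- the points of rank at least `h` form a copy of `K (r - h)` -/
theorem exists_iota : ∀ r h d : ℕ, h + d = r →
    ∃ ι : C(K d, K r), ι (top d) = top r ∧ ∀ x : K r, ∃ y, ι y = anc r h x := by
  intro r
  induction r with
  | zero =>
    intro h d hd
    obtain rfl : d = 0 := by omega
    exact ⟨ContinuousMap.id _, rfl, fun x => ⟨x, rfl⟩⟩
  | succ r ih =>
    intro h d hd
    cases d with
    | zero =>
      exact ⟨ContinuousMap.const _ (top (r + 1)), rfl, fun x => ⟨top 0, (anc_ge (by omega) x).symm⟩⟩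
    | succ d =>
      obtain ⟨ι, h1, h2⟩ := ih h d (by omega)
      have hc : Conv (fun n => (incC r n).comp ι) (top (r + 1)) := (conv_inc r).pre (fun _ => ι)
      refine ⟨glue _ _ hc, rfl, fun x => ?_⟩
      rcases cases_succ x with rfl | ⟨n, y, rfl⟩
      · exact ⟨top (d + 1), by rw [anc_top]; rfl⟩
      · obtain ⟨z, hz⟩ := h2 y
        refine ⟨inc n z, ?_⟩
        rw [anc_inc (by omega), glue_inc, ← hz]
        rfl

/-- an operator that reproduces the differences `f (anc h x) - f (anc (h + d) x)` -/
structure IsDiff (r h d : ℕ) (S : C(K r, ℝ) →ₗ[ℝ] C(K d, ℝ)) : Prop where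
  small : ∀ f : C(K r, ℝ), ∀ c ε : ℝ, (∀ x, |f x - c| ≤ ε) → ∀ y, |S f y| ≤ 2 * ε
  hit : ∀ x : K r, ∃ y, ∀ f : C(K r, ℝ), S f y = f (anc r h x) - f (anc r (h + d) x)
  top : ∀ f : C(K r, ℝ), S f (top d) = 0

/-- merging a null sequence of functions that vanish at the top -/
lemma conv_merge {d : ℕ} (u : ℕ → C(K (d + 1), ℝ)) (h0 : ∀ n, u n (SP.top (d + 1)) = 0)
    (h1 : ∀ ε > 0, ∀ᶠ n in atTop, ∀ y, |u n y| < ε) :
    Conv (fun k => (u (Nat.unpair k).1).comp (incC d (Nat.unpair k).2)) (0 : ℝ) := by
  intro N hN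
  obtain ⟨ε, hε, hεN⟩ := Metric.mem_nhds_iff.1 hN
  have hmem : ∀ t : ℝ, |t| < ε → t ∈ N := by
    intro t ht
    apply hεN
    rw [Metric.mem_ball, Real.dist_eq, sub_zero]
    exact ht
  obtain ⟨n0, hn0⟩ := eventually_atTop.1 (h1 ε hε)
  have h2 : ∀ n, ∃ m0, ∀ m ≥ m0, ∀ y, |u n (inc m y)| < ε := by
    intro n
    have h3 := conv_of_cont (u n) (Metric.ball 0 ε) (by
      rw [h0]; exact Metric.ball_mem_nhds _ hε)
    obtain ⟨m0, hm0⟩ := eventually_atTop.1 h3
    refine ⟨m0, fun m hm y => ?_⟩
    have := hm0 m hm y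
    rw [Metric.mem_ball, Real.dist_eq, sub_zero] at this
    exact this
  choose m0 hm0 using h2
  have hfin : {k : ℕ | ¬ ∀ x, |u (Nat.unpair k).1 (inc (Nat.unpair k).2 x)| < ε}.Finite := by
    have hsub : {k : ℕ | ¬ ∀ x, |u (Nat.unpair k).1 (inc (Nat.unpair k).2 x)| < ε} ⊆
        Nat.unpair ⁻¹' (⋃ n ∈ Finset.range n0, {n} ×ˢ (Set.Iio (m0 n))) := by
      intro k hk
      simp only [Set.mem_ofPred_eq] at hk
      have hk1 : (Nat.unpair k).1 < n0 := by
        by_contra hcon
        exact hk fun x => hn0 _ (by omega) _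
      have hk2 : (Nat.unpair k).2 < m0 (Nat.unpair k).1 := by
        by_contra hcon
        exact hk fun x => hm0 _ _ (by omega) _
      simp only [mem_preimage, mem_iUnion, Finset.mem_range]
      exact ⟨_, hk1, by simp [hk2]⟩
    refine Set.Finite.subset (Set.Finite.preimage ?_ ?_) hsub
    · intro a _ b _ hab
      have := congrArg (fun p : ℕ × ℕ => Nat.pair p.1 p.2) hab
      simpa using this
    · refine Set.Finite.biUnion (Finset.finite_toSet _) fun n _ => ?_
      exact (Set.finite_singleton n).prod (Set.finite_Iio _)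
  have h5 := hfin.bddAbove
  obtain ⟨B, hB⟩ := h5
  rw [eventually_atTop]
  refine ⟨B + 1, fun k hk x => ?_⟩
  apply hmem
  by_contra hcon
  have : k ∈ {k : ℕ | ¬ ∀ x, |u (Nat.unpair k).1 (inc (Nat.unpair k).2 x)| < ε} := by
    intro h
    exact hcon (h x)
  have := hB this
  omega

/-- composition with a continuous map, as a linear map -/
def pull {X Z : Type*} [TopologicalSpace X] [TopologicalSpace Z] (φ : C(X, Z)) :
    C(Z, ℝ) →ₗ[ℝ] C(X, ℝ) where
  toFun f := f.comp φ
  map_add' f g := rfl
  map_smul' c f := rfl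

lemma pull_apply {X Z : Type*} [TopologicalSpace X] [TopologicalSpace Z] (φ : C(X, Z))
    (f : C(Z, ℝ)) (x : X) : pull φ f x = f (φ x) := rfl

theorem exists_diff : ∀ r h d : ℕ, h + d ≤ r → ∃ S : C(K r, ℝ) →ₗ[ℝ] C(K d, ℝ), IsDiff r h d S := by
  intro r
  induction r with
  | zero =>
    intro h d hd
    obtain rfl : d = 0 := by omega
    refine ⟨0, ⟨?_, ?_, fun f => rfl⟩⟩
    · intro f c ε hε y
      have := (abs_nonneg _).trans (hε (top 0))
      simp [this]
    · intro x
      exact ⟨top 0, fun f => by simp⟩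
  | succ r ih =>
    intro h d hd
    by_cases hd0 : d = 0
    · subst hd0
      refine ⟨0, ⟨?_, ?_, fun f => rfl⟩⟩
      · intro f c ε hε y
        have := (abs_nonneg _).trans (hε (top (r + 1)))
        simp [this]
      · intro x
        exact ⟨top 0, fun f => by simp⟩
    obtain ⟨d, rfl⟩ := Nat.exists_eq_succ_of_ne_zero hd0
    rcases Nat.lt_or_ge r (h + (d + 1)) with hlt | hge
    · -- `h + d = r + 1`
      obtain ⟨ι, h1, h2⟩ := exists_iota (r + 1) h (d + 1) (by omega)
      refine ⟨pull ι - pull (ContinuousMap.const _ (SP.top (r + 1))), ⟨?_, ?_, ?_⟩⟩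
      · intro f c ε hε y
        show |f (ι y) - f (SP.top (r + 1))| ≤ 2 * ε
        have e1 := hε (ι y)
        have e2 := hε (SP.top (r + 1))
        rw [abs_le] at e1 e2 ⊢
        constructor <;> linarith [e1.1, e1.2, e2.1, e2.2]
      · intro x
        obtain ⟨y, hy⟩ := h2 x
        refine ⟨y, fun f => ?_⟩
        show f (ι y) - f (SP.top (r + 1)) = _
        rw [hy, anc_ge (show r + 1 ≤ h + (d + 1) by omega) x]
      · intro f
        show f (ι (SP.top (d + 1))) - f (SP.top (r + 1)) = 0
        rw [h1, sub_self]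
    · obtain ⟨S', hS'⟩ := ih h (d + 1) hge
      have hconv : ∀ f : C(K (r + 1), ℝ), Conv (fun k =>
          (S' (f.comp (incC r (Nat.unpair k).1))).comp (incC d (Nat.unpair k).2)) (0 : ℝ) := by
        intro f
        refine conv_merge (fun n => S' (f.comp (incC r n))) (fun n => hS'.top _) ?_
        intro ε hε
        have h3 := conv_of_cont f (Metric.ball (f (SP.top (r + 1))) (ε / 4))
          (Metric.ball_mem_nhds _ (by positivity))
        filter_upwards [h3] with n hn y
        have := hS'.small (f.comp (incC r n)) (f (SP.top (r + 1))) (ε / 4) (fun x => by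
          have := hn x
          rw [Metric.mem_ball, Real.dist_eq] at this
          exact this.le) y
        linarith
      refine ⟨⟨⟨fun f => glue _ _ (hconv f), ?_⟩, ?_⟩, ⟨?_, ?_, fun f => rfl⟩⟩
      · intro f g
        ext y
        rcases cases_succ y with rfl | ⟨k, z, rfl⟩
        · show (0 : ℝ) = 0 + 0
          simp
        · show S' ((f + g).comp (incC r (Nat.unpair k).1)) (inc (Nat.unpair k).2 z) =
            S' (f.comp (incC r (Nat.unpair k).1)) (inc (Nat.unpair k).2 z) +
            S' (g.comp (incC r (Nat.unpair k).1)) (inc (Nat.unpair k).2 z)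
          have : (f + g).comp (incC r (Nat.unpair k).1) = f.comp (incC r (Nat.unpair k).1) +
            g.comp (incC r (Nat.unpair k).1) := rfl
          rw [this, map_add]; rfl
      · intro c f
        ext y
        rcases cases_succ y with rfl | ⟨k, z, rfl⟩
        · show (0 : ℝ) = c * 0
          simp
        · show S' ((c • f).comp (incC r (Nat.unpair k).1)) (inc (Nat.unpair k).2 z) =
            c * S' (f.comp (incC r (Nat.unpair k).1)) (inc (Nat.unpair k).2 z)
          have : (c • f).comp (incC r (Nat.unpair k).1) = c • f.comp (incC r (Nat.unpair k).1) := rfl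
          rw [this, map_smul]; rfl
      · intro f c ε hε y
        rcases cases_succ y with rfl | ⟨k, z, rfl⟩
        · show |(0 : ℝ)| ≤ 2 * ε
          have := (abs_nonneg _).trans (hε (SP.top (r + 1)))
          simp [this]
        · exact hS'.small _ c ε (fun x => hε _) _
      · intro x
        rcases cases_succ x with rfl | ⟨n, x', rfl⟩
        · refine ⟨SP.top (d + 1), fun f => ?_⟩
          rw [anc_top, anc_top, sub_self]
          rfl
        · obtain ⟨y, hy⟩ := hS'.hit x'
          rcases cases_succ y with rfl | ⟨m, z, rfl⟩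
          · refine ⟨SP.top (d + 1), fun f => ?_⟩
            have h4 := hy (f.comp (incC r n))
            rw [hS'.top] at h4
            rw [anc_inc (by omega), anc_inc (by omega)]
            show (0 : ℝ) = _
            exact h4
          · refine ⟨inc (Nat.pair n m) z, fun f => ?_⟩
            have h4 := hy (f.comp (incC r n))
            rw [anc_inc (by omega), anc_inc (by omega)]
            show S' (f.comp (incC r (Nat.unpair (Nat.pair n m)).1))
              (inc (Nat.unpair (Nat.pair n m)).2 z) = _
            rw [Nat.unpair_pair]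
            exact h4

end Pool.Agent.Q195.SP
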