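import Pool.Agent.Q283.SP.Stm

/-!
# Project SP, job SAT1: saturation of a lattice of functions with values in the p-adic integers
-/

set_option autoImplicit false

namespace Pool.Agent.Q195.SP

theorem sat1 : Pool.Agent.Q283.SP.S_SAT1 := by
  intro p _ X b0 c hind hb0
  have hp : Prime (p : ℤ_[p]) := PadicInt.prime_p
  have hp0 : (p : ℤ_[p]) ≠ 0 := hp.ne_zero
  obtain ⟨x0, hx0⟩ := hb0
  have hu : IsUnit (b0 x0) := by
    by_contra h
    apply hx0
    rw [← PadicInt.norm_lt_one_iff_dvd]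
    exact PadicInt.not_isUnit_iff.1 h
  obtain ⟨u, hu⟩ := hu
  let s : ℤ_[p] := -(c x0 * ((u⁻¹ : ℤ_[p]ˣ) : ℤ_[p]))
  have hs0 : s * b0 x0 + c x0 = 0 := by
    have : ((u⁻¹ : ℤ_[p]ˣ) : ℤ_[p]) * b0 x0 = 1 := by rw [← hu, Units.inv_mul]
    linear_combination (-(c x0)) * this
  have hne : ∃ x1, s * b0 x1 + c x1 ≠ 0 := by
    by_contra h
    push Not at h
    have := hind s 1 (fun x => by rw [one_mul]; exact h x)
    exact one_ne_zero this
  obtain ⟨x1, hx1⟩ := hne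
  have hP : ∃ n : ℕ, ∃ x, ¬ (p : ℤ_[p]) ^ n ∣ s * b0 x + c x := by
    obtain ⟨n, hn⟩ := FiniteMultiplicity.of_prime_left hp hx1
    exact ⟨n + 1, x1, hn⟩
  classical
  obtain ⟨m, hm1, hm2⟩ : ∃ m : ℕ, (∀ x, (p : ℤ_[p]) ^ m ∣ s * b0 x + c x) ∧
      ∃ x, ¬ (p : ℤ_[p]) ^ (m + 1) ∣ s * b0 x + c x := by
    have h0 : Nat.find hP ≠ 0 := by
      intro h
      obtain ⟨x, hx⟩ := Nat.find_spec hP
      rw [h, pow_zero] at hx
      exact hx (one_dvd _)
    obtain ⟨m, hm⟩ := Nat.exists_eq_succ_of_ne_zero h0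
    refine ⟨m, fun x => ?_, ?_⟩
    · by_contra h
      exact Nat.find_min hP (show m < Nat.find hP by omega) ⟨x, h⟩
    · have := Nat.find_spec hP
      rw [hm] at this
      exact this
  choose b hb using hm1
  obtain ⟨x2, hx2⟩ := hm2
  have hpm : (p : ℤ_[p]) ^ m ≠ 0 := pow_ne_zero _ hp0
  refine ⟨b, m, s, 1, fun x => by rw [← hb x, one_mul], ?_⟩
  intro e0 e1 h
  have hb_x0 : b x0 = 0 := by
    have := hb x0
    rw [hs0] at this
    rcases mul_eq_zero.1 this.symm with h1 | h1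
    · exact absurd h1 hpm
    · exact h1
  have hker : ∀ z : ℤ_[p], PadicInt.toZMod z = 0 ↔ (p : ℤ_[p]) ∣ z := by
    intro z
    rw [← RingHom.mem_ker, PadicInt.ker_toZMod, PadicInt.maximalIdeal_eq_span_p,
      Ideal.mem_span_singleton]
  have he0 : e0 = 0 := by
    have h1 := h x0
    rw [hb_x0, map_zero, mul_zero, add_zero] at h1
    rcases mul_eq_zero.1 h1 with h2 | h2
    · exact h2
    · exact absurd ((hker _).1 h2) hx0
  refine ⟨he0, ?_⟩
  have h1 := h x2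
  rw [he0, zero_mul, zero_add] at h1
  rcases mul_eq_zero.1 h1 with h2 | h2
  · exact h2
  · exfalso
    apply hx2
    rw [hb x2, pow_succ]
    exact mul_dvd_mul_left _ ((hker _).1 h2)

end Pool.Agent.Q195.SP
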